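import Mathlib
import Pool.Agent.H273.LFR.Final

set_option autoImplicit false

open Pool.Agent.Helper23K9.LR

namespace Pool.Agent.Results.MP_cf641d_an.NormedSpacesRigid

/-- `ℝ^d` with the Manhattan distance is Lipschitz-free rigid for every `d ≥ 2`; more generally every
finite-dimensional real normed space of dimension at least two is Lipschitz-free rigid. -/
theorem result :
    (∀ d : ℕ, 2 ≤ d → LipFreeRigid (PiLp 1 (fun _ : Fin d => ℝ))) ∧
    ∀ (E : Type) [NormedAddCommGroup E] [NormedSpace ℝ E] [FiniteDimensional ℝ E],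
      2 ≤ Module.finrank ℝ E → LipFreeRigid E :=
  ⟨Pool.Agent.H273.LFR.manhattan, fun E _ _ _ h => Pool.Agent.H273.LFR.rigid E h⟩

end Pool.Agent.Results.MP_cf641d_an.NormedSpacesRigid
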